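import Pool.Agent.ZFQ.Final

/-!
# CPQM implies CPQMBi in ZF

In every model `(M, E)` of ZF the following holds: if every countable Tychonoff product of
quasi-metrizable topological spaces is quasi-metrizable, then every countable product of
quasi-metrizable bitopological spaces is quasi-metrizable.  All notions are those of the model
`(M, E)`; the definitions are in `Pool.Agent.ZFQ.Defs`.

Idea of the proof.  A product of spaces with a base point recovers its factors, so CPQM is the
choice of a quasi-metric for each member of a countable family of quasi-metrizable spaces.  A
bitopological space `(X, τ₁, τ₂)` is coded by a space `Y` with isolated points `r(u,v,m)`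
(`u ≠ v` in `X`), points `q(z,m)` with neighbourhoods `{r(u,v,m) : u ∈ O, v ∈ G}` (`O ∋ z` open
for `τ₂`, `G ∋ z` open for `τ₁`), and points `p(x,U,H)` (`x ∈ U ∈ τ₁`, `H` a decreasing sequence
of sets converging to `x`) with neighbourhoods `{q(z,m), r(u,v,m) : m ≥ n, u ∈ H m → v ∈ U}`.
If `X` is quasi-metrizable, so is `Y` (by a non-archimedean quasi-metric), and any quasi-metric of
`Y` defines canonical neighbourhoods `M k z` of `(z,z)` for which three-step compositions
converge.  From these a normal sequence of entourages is obtained without choices: the
composition of the sets `M n z` over all sufficiently large `n = n(z)` is controlled by the point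
with the smaller index.  Frink's lemma gives the quasi-metric.
-/

namespace Pool.Agent.Results.MP_ccf5e0_lc.CountableProducts

open Pool.Agent.ZFQ

/-- In every model of ZF, `CPQM` implies `CPQMBi`. -/
theorem result {M : Type*} (E : M → M → Prop) (hZF : IsZF E) (𝓡 : RealLine E) :
    CPQM 𝓡 → CPQMBi 𝓡 := by
  intro h
  let _ : ZFModel M := ⟨E, hZF⟩
  exact main (M := M) 𝓡 h

end Pool.Agent.Results.MP_ccf5e0_lc.CountableProducts
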